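import Mathlib
import Pool.Agent.MP_51db15_ag.Qh.Final

/-! A formal symplectic germ with a contracting vector field, unrelated to the form, is the
completion at the vertex of a conical symplectic variety. -/

open Pool.Agent.MP_51db15_ag Pool.Agent.MP_51db15_ag.Hy Pool.Agent.MP_51db15_ag.Qh

theorem Pool.Agent.Results.MP_51db15_ag.Contracting.result
    (N : ℕ) (I : Ideal (MvPowerSeries (Fin N) ℂ)) [IsDomain (MvPowerSeries (Fin N) ℂ ⧸ I)]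
    [IsIntegrallyClosed (MvPowerSeries (Fin N) ℂ ⧸ I)]
    (ω : LinearMap.BilinForm (MvPowerSeries (Fin N) ℂ ⧸ I)
      (Derivation ℂ (MvPowerSeries (Fin N) ℂ ⧸ I) (MvPowerSeries (Fin N) ℂ ⧸ I)))
    (hω : IsSymplecticForm ω)
    (hV : ∀ V : ValuationSubring (FractionRing (MvPowerSeries (Fin N) ℂ ⧸ I)),
      (∀ r : MvPowerSeries (Fin N) ℂ ⧸ I, algebraMap _ _ r ∈ V) → KaehlerOn ω V)
    (ξ : Derivation ℂ (MvPowerSeries (Fin N) ℂ) (MvPowerSeries (Fin N) ℂ))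
    (hI : ∀ g ∈ I, ξ g ∈ I)
    (hm : ∀ g ∈ IsLocalRing.maximalIdeal (MvPowerSeries (Fin N) ℂ),
      ξ g ∈ IsLocalRing.maximalIdeal (MvPowerSeries (Fin N) ℂ))
    (hp : ∀ (c : ℂ), ∀ g ∈ IsLocalRing.maximalIdeal (MvPowerSeries (Fin N) ℂ),
      g ∉ IsLocalRing.maximalIdeal (MvPowerSeries (Fin N) ℂ) ^ 2 →
      ξ g - c • g ∈ IsLocalRing.maximalIdeal (MvPowerSeries (Fin N) ℂ) ^ 2 → 0 < c.re) :
    ∃ (ψ : MvPowerSeries (Fin N) ℂ ≃ₐ[ℂ] MvPowerSeries (Fin N) ℂ) (K : Type) (_ : Field K)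
      (_ : Algebra ℂ K) (φ : MvPolynomial (Fin N) ℂ →ₐ[ℂ] K)
      (ω₀ : LinearMap.BilinForm K (Derivation ℂ K K)) (𝒢 : ℕ → Submodule ℂ φ.range),
      ((RingHom.ker φ).map MvPolynomial.coeToMvPowerSeries.ringHom).map ψ = I ∧
        IsConicalSymplectic φ.range ω₀ 𝒢 ∧ ∀ d, 0 < d → ∀ f ∈ 𝒢 d,
          f ∈ Ideal.span (Set.range fun i => φ.rangeRestrict (MvPolynomial.X i)) :=
  main3 hj (hg rat hker) ini2 (hnrm sca) (hat hker) bas rEV rVTX rEVF (hl gen) (hgen gen hdc)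
    (hcmp gen) hp1 hclo hreg hpi (hperf gen) rHLTP clo pi (idc idem) st rCON alg rPERF rSLP2 rEND2
    (Fin N) I ω hω hV ξ hI hm hp
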