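import Mathlib
import Pool.Agent.MP_51db15_ag.Final

/-! Every closed point of a normal affine variety of dimension `2n` that is symplectic on the
regular locus and has an effective Hamiltonian action of a torus of rank `n` has a Zariski
neighbourhood that is etale over a conical symplectic variety, the point going to the vertex. -/

open Pool.Agent.MP_51db15_ag

theorem Pool.Agent.Results.MP_51db15_ag.HalfTorus.result
    (R : Type) [CommRing R] [IsDomain R] [Algebra ℂ R] [Algebra.FiniteType ℂ R]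
    [IsIntegrallyClosed R] (n : ℕ) (hd : ringKrullDim R = (2 * n : ℕ))
    (ω : LinearMap.BilinForm (FractionRing R) (Derivation ℂ (FractionRing R) (FractionRing R)))
    (hω : SymplecticOnReg R ω) (𝒜 : (Fin n → ℤ) → Submodule ℂ R) [GradedAlgebra 𝒜]
    (he : AddSubgroup.closure {α | 𝒜 α ≠ ⊥} = ⊤) (μ : Fin n → R) (hμ : IsMomentMap 𝒜 ω μ)
    (m : Ideal R) [m.IsMaximal] :
    ∃ (N : ℕ) (ℓ : Fin N → Fin n → ℤ)
      (ω₀ : LinearMap.BilinForm (K0 n) (Derivation ℂ (K0 n) (K0 n)))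
      (𝒢 : ℕ → Submodule ℂ (hypertoric ℓ)), IsConicalSymplectic (hypertoric ℓ) ω₀ 𝒢 ∧
      ∃ s ∉ m, ∃ φ : hypertoric ℓ →ₐ[ℂ] Localization.Away s, φ.toRingHom.Etale ∧
        ∀ d ≠ 0, ∀ f ∈ 𝒢 d, φ f ∈ m.map (algebraMap R (Localization.Away s)) :=
  main R n hd ω hω 𝒜 he μ hμ m
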