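import Mathlib
import Pool.Agent.MP_51db15_ag.Hy.Final

/-! Every formal hypersurface germ that is a symplectic singularity is the completion of a
conical symplectic hypersurface at its vertex. -/

open Pool.Agent.MP_51db15_ag Pool.Agent.MP_51db15_ag.Hy

theorem Pool.Agent.Results.MP_51db15_ag.Hypersurface.result
    (N : ℕ) (f : MvPowerSeries (Fin N) ℂ) (hf : f ≠ 0)
    [IsDomain (MvPowerSeries (Fin N) ℂ ⧸ Ideal.span {f})]
    [IsIntegrallyClosed (MvPowerSeries (Fin N) ℂ ⧸ Ideal.span {f})]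
    (ω : LinearMap.BilinForm (MvPowerSeries (Fin N) ℂ ⧸ Ideal.span {f})
      (Derivation ℂ (MvPowerSeries (Fin N) ℂ ⧸ Ideal.span {f})
        (MvPowerSeries (Fin N) ℂ ⧸ Ideal.span {f})))
    (hω : IsSymplecticForm ω)
    (hV : ∀ V : ValuationSubring (FractionRing (MvPowerSeries (Fin N) ℂ ⧸ Ideal.span {f})),
      (∀ r : MvPowerSeries (Fin N) ℂ ⧸ Ideal.span {f}, algebraMap _ _ r ∈ V) → KaehlerOn ω V) :
    ∃ (F : MvPolynomial (Fin N) ℂ) (a : Fin N → ℕ)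
      (ψ : MvPowerSeries (Fin N) ℂ ≃ₐ[ℂ] MvPowerSeries (Fin N) ℂ) (u : (MvPowerSeries (Fin N) ℂ)ˣ),
      ψ f = u * (F : MvPowerSeries (Fin N) ℂ) ∧ (∀ i, 0 < a i) ∧
      ∃ (K : Type) (_ : Field K) (_ : Algebra ℂ K) (φ : MvPolynomial (Fin N) ℂ →ₐ[ℂ] K)
        (ω₀ : LinearMap.BilinForm K (Derivation ℂ K K)) (𝒢 : ℕ → Submodule ℂ φ.range),
        RingHom.ker φ = Ideal.span {F} ∧ IsConicalSymplectic φ.range ω₀ 𝒢 ∧
          ∀ i, φ.rangeRestrict (MvPolynomial.X i) ∈ 𝒢 (a i) := by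
  have h : Hyp f := ⟨(Ideal.span_singleton_prime hf).1
    ((Ideal.Quotient.isDomain_iff_prime _).1 inferInstance), inferInstance⟩
  obtain ⟨Θ, hP, hE⟩ := Fin.rINIT (Fin N) f h ω hω hV
  exact Fin.rD4 (Fin N) f h (Fin.rMAIN (Fin N) f Θ h hP hE)
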