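import Mathlib
import Pool.Agent.MP_51db15_ag.Qh.Final5

/-! A formal symplectic germ with a normal weighted tangent cone whose tangent sheaf is almost
slope semistable of positive slope is the completion at the vertex of a conical symplectic
variety. -/

open Pool.Agent.MP_51db15_ag Pool.Agent.MP_51db15_ag.Hy Pool.Agent.MP_51db15_ag.Qh

theorem Pool.Agent.Results.MP_51db15_ag.SemistableCone.result
    (N : ℕ) (I : Ideal (MvPowerSeries (Fin N) ℂ)) [IsDomain (MvPowerSeries (Fin N) ℂ ⧸ I)]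
    [IsIntegrallyClosed (MvPowerSeries (Fin N) ℂ ⧸ I)]
    (ω : LinearMap.BilinForm (MvPowerSeries (Fin N) ℂ ⧸ I)
      (Derivation ℂ (MvPowerSeries (Fin N) ℂ ⧸ I) (MvPowerSeries (Fin N) ℂ ⧸ I)))
    (hω : IsSymplecticForm ω)
    (hV : ∀ V : ValuationSubring (FractionRing (MvPowerSeries (Fin N) ℂ ⧸ I)),
      (∀ r : MvPowerSeries (Fin N) ℂ ⧸ I, algebraMap _ _ r ∈ V) → KaehlerOn ω V)
    (ξ : Derivation ℂ (MvPowerSeries (Fin N) ℂ ⧸ I) (MvPowerSeries (Fin N) ℂ ⧸ I))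
    (hξ : Nc.IsDilating ω ξ) (a : Fin N → ℕ) (ha : ∀ i, 0 < a i)
    (L : Type) [Field L] [Algebra ℂ L] (σ : MvPolynomial (Fin N) ℂ →ₐ[ℂ] L)
    (hσ : RingHom.ker σ = wCone a I) [IsFractionRing σ.range L] [IsIntegrallyClosed σ.range]
    (E : Derivation ℂ L L) (hE : ∀ i, E (σ (MvPolynomial.X i)) = (a i : ℂ) • σ (MvPolynomial.X i))
    (α β : ℝ) (hα : 0 < α) (hβ : β - α < 1 / 2)
    (hT : SlopesIn σ.range E (ad E) (TT σ.range) α β) :
    ∃ (ψ : MvPowerSeries (Fin N) ℂ ≃ₐ[ℂ] MvPowerSeries (Fin N) ℂ) (K : Type) (_ : Field K)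
      (_ : Algebra ℂ K) (φ : MvPolynomial (Fin N) ℂ →ₐ[ℂ] K)
      (ω₀ : LinearMap.BilinForm K (Derivation ℂ K K)) (𝒢 : ℕ → Submodule ℂ φ.range),
      ((RingHom.ker φ).map MvPolynomial.coeToMvPowerSeries.ringHom).map ψ = I ∧
        IsConicalSymplectic φ.range ω₀ 𝒢 ∧ ∀ d, 0 < d → ∀ f ∈ 𝒢 d,
          f ∈ Ideal.span (Set.range fun i => φ.rangeRestrict (MvPolynomial.X i)) :=
  have h := rHSC L (Fin N) σ.range E _ a α β (cone_of ha σ hE) (nrm_of σ.range) hα hβ hT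
  balanced_conical (Fin N) I ω hω hV ξ hξ a ha L σ hσ E hE h.1 h.2
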